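import Pool.Agent.N579.HI.Dg

/-!
There is a computable colouring of the positive integers with finitely many colours such that no
infinite `Π⁰₃` set, and even no infinite `Σ⁰₄` set, is homogeneous for sums of at most three
distinct elements.
-/

namespace Pool.Agent.Results.MP_c0e71b_lc.NoPi3Solution

open Pool.Agent.N579.HI

/-- There is a computable colouring `c` with 144 colours such that no infinite set `X` of positive
integers, all of whose sums of one, two or three distinct elements get the same colour, is `Π⁰₃`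
or `Σ⁰₄`. -/
theorem result :
    ∃ c : ℕ → Fin 144, Computable c ∧
      ∀ X : Set ℕ, X.Infinite → 0 ∉ X →
        (∃ i, ∀ F : Finset ℕ, (F : Set ℕ) ⊆ X → F.Nonempty → F.card ≤ 3 →
          c (∑ n ∈ F, n) = i) →
        (∀ R : ℕ → ℕ → ℕ → ℕ → Bool,
          (Computable fun q : ℕ × ℕ × ℕ × ℕ => R q.1 q.2.1 q.2.2.1 q.2.2.2) →
          X ≠ {n | ∀ a, ∃ b, ∀ t, R n a b t = true}) ∧
        ∀ R : ℕ → ℕ → ℕ → ℕ → ℕ → Bool,
          (Computable fun q : ℕ × ℕ × ℕ × ℕ × ℕ =>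
            R q.1 q.2.1 q.2.2.1 q.2.2.2.1 q.2.2.2.2) →
          X ≠ {n | ∃ a, ∀ b, ∃ t, ∀ u, R n a b t u = true} := by
  refine ⟨cc HD 2, c_cc c_HD 2, fun X hX h0 hc => ?_⟩
  have hs : Sol HD 2 X := sol hX h0 hc
  refine ⟨fun R hR hXR => ?_, fun R hR => hs.no_sigma4 hR⟩
  refine hs.no_sigma4 (R := fun n _ b t u => R n b t u) ?_ ?_
  · exact hR.comp (g := fun q : ℕ × ℕ × ℕ × ℕ × ℕ => (q.1, q.2.2.1, q.2.2.2.1, q.2.2.2.2))
      (by fun_prop)
  · rw [hXR]
    ext n
    simp only [Set.mem_ofPred_eq]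
    exact ⟨fun h => ⟨0, h⟩, fun ⟨_, h⟩ => h⟩

end Pool.Agent.Results.MP_c0e71b_lc.NoPi3Solution
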